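import Pool.Agent.Helper54.CG.Goals

/-! Packet CG-KER: points of the ramification curve off `M = 0`. -/

set_option linter.unusedSimpArgs false

namespace Pool.Agent.Helper64.CG.KER

open MvPolynomial Pool.Agent.Helper16.Cusp
open Pool.Agent.Helper54.CG

lemma pn (i : Fin 3) (n : ℕ) [n.AtLeastTwo] : pderiv i (OfNat.ofNat n : R) = 0 := by
  have h : (OfNat.ofNat n : R) = C (OfNat.ofNat n : ℂ) := by
    rw [map_ofNat]
  rw [h, pderiv_C]

lemma pn4 (i : Fin 3) : pderiv i (4 : R) = 0 := pn i 4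
lemma pn8 (i : Fin 3) : pderiv i (8 : R) = 0 := pn i 8
lemma pn9 (i : Fin 3) : pderiv i (9 : R) = 0 := pn i 9
lemma pn12 (i : Fin 3) : pderiv i (12 : R) = 0 := pn i 12
lemma pn18 (i : Fin 3) : pderiv i (18 : R) = 0 := pn i 18
lemma pn27 (i : Fin 3) : pderiv i (27 : R) = 0 := pn i 27
lemma pn36 (i : Fin 3) : pderiv i (36 : R) = 0 := pn i 36
lemma pn48 (i : Fin 3) : pderiv i (48 : R) = 0 := pn i 48
lemma pn216 (i : Fin 3) : pderiv i (216 : R) = 0 := pn i 216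
lemma pn288 (i : Fin 3) : pderiv i (288 : R) = 0 := pn i 288
lemma pn972 (i : Fin 3) : pderiv i (972 : R) = 0 := pn i 972

lemma A0 (v : V) : eval v (pderiv 0 pA) = 3 * v 0 ^ 2 - 36 * v 1 := by
  simp [pA, pderiv_X, pn4, pn8, pn9, pn12, pn18, pn27, pn36, pn48, pn216, pn288, pn972,
    Derivation.leibniz, Derivation.leibniz_pow]
  ring

lemma A1 (v : V) : eval v (pderiv 1 pA) = - 36 * v 0 := by
  simp [pA, pderiv_X, pn4, pn8, pn9, pn12, pn18, pn27, pn36, pn48, pn216, pn288, pn972,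
    Derivation.leibniz, Derivation.leibniz_pow]

lemma A2 (v : V) : eval v (pderiv 2 pA) = 648 * v 2 ^ 2 := by
  simp [pA, pderiv_X, pn4, pn8, pn9, pn12, pn18, pn27, pn36, pn48, pn216, pn288, pn972,
    Derivation.leibniz, Derivation.leibniz_pow]
  ring

lemma C0 (v : V) : eval v (pderiv 0 pC) = 18 * v 0 * v 2 := by
  simp [pC, pderiv_X, pn4, pn8, pn9, pn12, pn18, pn27, pn36, pn48, pn216, pn288, pn972,
    Derivation.leibniz, Derivation.leibniz_pow]
  ring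

lemma C1 (v : V) : eval v (pderiv 1 pC) = - 36 * v 2 := by
  simp [pC, pderiv_X, pn4, pn8, pn9, pn12, pn18, pn27, pn36, pn48, pn216, pn288, pn972,
    Derivation.leibniz, Derivation.leibniz_pow]
  ring

lemma C2 (v : V) : eval v (pderiv 2 pC) = 9 * (v 0 ^ 2 - 4 * v 1) := by
  simp [pC, pderiv_X, pn4, pn8, pn9, pn12, pn18, pn27, pn36, pn48, pn216, pn288, pn972,
    Derivation.leibniz, Derivation.leibniz_pow]
  try ring

lemma B0 (v : V) : eval v (pderiv 0 pB) =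
    -108 * v 0 * v 1 * (v 0 ^ 2 - 4 * v 1) + 972 * v 2 ^ 3 * (3 * v 0 ^ 2 - 4 * v 1) := by
  simp [pB, pderiv_X, pn4, pn8, pn9, pn12, pn18, pn27, pn36, pn48, pn216, pn288, pn972,
    Derivation.leibniz, Derivation.leibniz_pow]
  ring

lemma B1 (v : V) : eval v (pderiv 1 pB) =
    -27 * (v 0 ^ 2 - 4 * v 1) ^ 2 + 216 * v 1 * (v 0 ^ 2 - 4 * v 1) - 3888 * v 0 * v 2 ^ 3 := by
  simp [pB, pderiv_X, pn4, pn8, pn9, pn12, pn18, pn27, pn36, pn48, pn216, pn288, pn972,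
    Derivation.leibniz, Derivation.leibniz_pow]
  ring

lemma B2 (v : V) : eval v (pderiv 2 pB) =
    2916 * v 2 ^ 2 * (v 0 ^ 3 - 4 * v 0 * v 1 + 12 * v 2 ^ 3) + 34992 * v 2 ^ 5 := by
  simp [pB, pderiv_X, pn4, pn8, pn9, pn12, pn18, pn27, pn36, pn48, pn216, pn288, pn972,
    Derivation.leibniz, Derivation.leibniz_pow]
  ring

lemma R0 (v : V) : eval v (pderiv 0 pR) =
    9 * (4 * v 0 ^ 3 + 16 * v 0 * v 1 + 288 * v 2 ^ 3) := by
  simp [pR, pderiv_X, pn4, pn8, pn9, pn12, pn18, pn27, pn36, pn48, pn216, pn288, pn972,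
    Derivation.leibniz, Derivation.leibniz_pow]
  ring

lemma R1 (v : V) : eval v (pderiv 1 pR) = 9 * (8 * v 0 ^ 2 - 96 * v 1) := by
  simp [pR, pderiv_X, pn4, pn8, pn9, pn12, pn18, pn27, pn36, pn48, pn216, pn288, pn972,
    Derivation.leibniz, Derivation.leibniz_pow]
  ring

lemma R2 (v : V) : eval v (pderiv 2 pR) = 7776 * v 0 * v 2 ^ 2 := by
  simp [pR, pderiv_X, pn4, pn8, pn9, pn12, pn18, pn27, pn36, pn48, pn216, pn288, pn972,
    Derivation.leibniz, Derivation.leibniz_pow]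
  ring

lemma evR (v : V) : eval v pR =
    9 * (v 0 ^ 4 + 8 * v 0 ^ 2 * v 1 - 48 * v 1 ^ 2 + 288 * v 0 * v 2 ^ 3) := by
  simp [pR]

lemma evM (v : V) : eval v pM =
    v 0 ^ 2 * v 1 ^ 2 - 4 * v 1 ^ 3 - 4 * v 0 ^ 3 * v 2 ^ 3 + 18 * v 0 * v 1 * v 2 ^ 3 -
      27 * v 2 ^ 6 := by
  simp [pM]

lemma dd3 (a : R) (v u : V) : dd a v u =
    u 0 * eval v (pderiv 0 a) + u 1 * eval v (pderiv 1 a) + u 2 * eval v (pderiv 2 a) := by
  unfold dd
  rw [Fin.sum_univ_three]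

/-- the cross product of the gradients of `A` and `C` -/
noncomputable def kk (v : V) : V :=
  ![23328 * v 2 ^ 3 + 1296 * v 0 * v 1 - 324 * v 0 ^ 3,
    -1296 * v 1 ^ 2 + 11664 * v 0 * v 2 ^ 3 + 432 * v 0 ^ 2 * v 1 - 27 * v 0 ^ 4,
    1296 * v 1 * v 2 + 540 * v 0 ^ 2 * v 2]

lemma kk0 (v : V) : kk v 0 = 23328 * v 2 ^ 3 + 1296 * v 0 * v 1 - 324 * v 0 ^ 3 := rfl
lemma kk1 (v : V) : kk v 1 =
    -1296 * v 1 ^ 2 + 11664 * v 0 * v 2 ^ 3 + 432 * v 0 ^ 2 * v 1 - 27 * v 0 ^ 4 := rfl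
lemma kk2 (v : V) : kk v 2 = 1296 * v 1 * v 2 + 540 * v 0 ^ 2 * v 2 := rfl

lemma dAk (v : V) : dd pA v (kk v) = 0 := by
  rw [dd3, A0, A1, A2, kk0, kk1, kk2]; ring

lemma dCk (v : V) : dd pC v (kk v) = 0 := by
  rw [dd3, C0, C1, C2, kk0, kk1, kk2]; ring

lemma dBk (v : V) : dd pB v (kk v) = 9 * (eval v pR) ^ 2 := by
  rw [dd3, B0, B1, B2, kk0, kk1, kk2, evR]; ring

lemma dRk (v : V) : dd pR v (kk v) =
    -2239488 * eval v pM + (18144 * v 1 - 1512 * v 0 ^ 2) * eval v pR := by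
  rw [dd3, R0, R1, R2, kk0, kk1, kk2, evR, evM]; ring

lemma ff0 : ff 0 = pA := rfl
lemma ff1 : ff 1 = pB := rfl
lemma ff2 : ff 2 = pC := rfl

/-- independence of the rows `A` and `C` -/
lemma indep (v : V) (hk : kk v ≠ 0) (x y : ℂ)
    (h : ∀ u : V, x * dd pA v u + y * dd pC v u = 0) : x = 0 ∧ y = 0 := by
  have e0 := h ![1, 0, 0]
  have e1 := h ![0, 1, 0]
  have e2 := h ![0, 0, 1]
  simp only [dd3, A0, A1, A2, C0, C1, C2] at e0 e1 e2
  simp at e0 e1 e2
  have hk' : kk v 0 ≠ 0 ∨ kk v 1 ≠ 0 ∨ kk v 2 ≠ 0 := by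
    by_contra hc
    push Not at hc
    apply hk
    funext i
    fin_cases i
    · exact hc.1
    · exact hc.2.1
    · exact hc.2.2
  rw [kk0, kk1, kk2] at hk'
  rcases hk' with h0 | h0 | h0
  · constructor
    · apply (mul_eq_zero.1 (?_ : x * (23328 * v 2 ^ 3 + 1296 * v 0 * v 1 - 324 * v 0 ^ 3) = 0)).resolve_right h0
      linear_combination (9 * (v 0 ^ 2 - 4 * v 1)) * e1 + (36 * v 2) * e2
    · apply (mul_eq_zero.1 (?_ : y * (23328 * v 2 ^ 3 + 1296 * v 0 * v 1 - 324 * v 0 ^ 3) = 0)).resolve_right h0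
      linear_combination (-36 * v 0) * e2 - (648 * v 2 ^ 2) * e1
  · constructor
    · apply (mul_eq_zero.1 (?_ : x * (-1296 * v 1 ^ 2 + 11664 * v 0 * v 2 ^ 3 + 432 * v 0 ^ 2 * v 1 - 27 * v 0 ^ 4) = 0)).resolve_right h0
      linear_combination (18 * v 0 * v 2) * e2 - (9 * (v 0 ^ 2 - 4 * v 1)) * e0
    · apply (mul_eq_zero.1 (?_ : y * (-1296 * v 1 ^ 2 + 11664 * v 0 * v 2 ^ 3 + 432 * v 0 ^ 2 * v 1 - 27 * v 0 ^ 4) = 0)).resolve_right h0
      linear_combination (648 * v 2 ^ 2) * e0 - (3 * v 0 ^ 2 - 36 * v 1) * e2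
  · constructor
    · apply (mul_eq_zero.1 (?_ : x * (1296 * v 1 * v 2 + 540 * v 0 ^ 2 * v 2) = 0)).resolve_right h0
      linear_combination (-36 * v 2) * e0 - (18 * v 0 * v 2) * e1
    · apply (mul_eq_zero.1 (?_ : y * (1296 * v 1 * v 2 + 540 * v 0 ^ 2 * v 2) = 0)).resolve_right h0
      linear_combination (3 * v 0 ^ 2 - 36 * v 1) * e1 + (36 * v 0) * e0

/-- the derivative of `M R³` at a point of `R = 0` is zero -/
lemma ddMR (v u : V) (hR : eval v pR = 0) : dd (pM * pR ^ 3) v u = 0 := by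
  unfold dd
  apply Finset.sum_eq_zero
  intro i _
  rw [Derivation.leibniz, Derivation.leibniz_pow]
  simp [hR]

theorem t (h1 : G_MR) (h2 : G_CH) : G_KER := by
  intro v hR hM
  have hRk : dd pR v (kk v) ≠ 0 := by
    rw [dRk, hR, mul_zero, add_zero]
    exact mul_ne_zero (by norm_num) hM
  have hk : kk v ≠ 0 := by
    intro h
    apply hRk
    rw [h]
    simp [dd]
  refine ⟨⟨kk v, ?_, hRk⟩, ?_⟩
  · intro i
    fin_cases i
    · exact dAk v
    · show dd pB v (kk v) = 0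
      rw [dBk, hR]; ring
    · exact dCk v
  · rintro hG b hb
    have hMu : ∀ u, dd pM (phi v) (fun i => dd (ff i) v u) = 0 := by
      intro u
      rw [← h2 pM v u, h1]
      exact ddMR v u hR
    have key : ∀ x y z : ℂ, (∀ u : V, dd pA v u * x + dd pB v u * y + dd pC v u * z = 0) →
        y = 0 → x = 0 ∧ z = 0 := by
      intro x y z h hy
      apply indep v hk
      intro u
      have := h u
      rw [hy] at this
      linear_combination this
    have hb' : ∀ u : V, dd pA v u * eval (phi v) (pderiv 0 b) +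
        dd pB v u * eval (phi v) (pderiv 1 b) + dd pC v u * eval (phi v) (pderiv 2 b) = 0 := by
      intro u
      have := hb u
      rw [dd3] at this
      exact this
    have hM' : ∀ u : V, dd pA v u * eval (phi v) (pderiv 0 pM) +
        dd pB v u * eval (phi v) (pderiv 1 pM) + dd pC v u * eval (phi v) (pderiv 2 pM) = 0 := by
      intro u
      have := hMu u
      rw [dd3] at this
      exact this
    have hM1 : eval (phi v) (pderiv 1 pM) ≠ 0 := by
      intro h0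
      obtain ⟨hx, hz⟩ := key _ _ _ hM' h0
      obtain ⟨i, hi⟩ := hG
      apply hi
      fin_cases i
      · exact hx
      · exact h0
      · exact hz
    refine ⟨eval (phi v) (pderiv 1 b) / eval (phi v) (pderiv 1 pM), ?_⟩
    set l : ℂ := eval (phi v) (pderiv 1 b) / eval (phi v) (pderiv 1 pM) with hl
    have hl1 : eval (phi v) (pderiv 1 b) = l * eval (phi v) (pderiv 1 pM) := by
      rw [hl]; field_simp
    obtain ⟨hx, hz⟩ := key (eval (phi v) (pderiv 0 b) - l * eval (phi v) (pderiv 0 pM))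
      (eval (phi v) (pderiv 1 b) - l * eval (phi v) (pderiv 1 pM))
      (eval (phi v) (pderiv 2 b) - l * eval (phi v) (pderiv 2 pM)) (by
        intro u
        linear_combination hb' u - l * hM' u) (by rw [hl1]; ring)
    intro u'
    rw [dd3, dd3]
    linear_combination u' 0 * hx + u' 1 * hl1 + u' 2 * hz

end Pool.Agent.Helper64.CG.KER
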